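import Mathlib
import Pool.Agent.Hhelper52.BregmanKI
import Pool.Agent.Hhelper52.BregmanMult

set_option autoImplicit false

namespace Pool.Agent.Results.MP_3eac50_co.BalancedBound

open MvPolynomial Pool.Agent.Hhelper52.BregmanKI Pool.Agent.Hhelper52.BregmanMult

/-- The balanced multinomial coefficient `M(n,k)`: with `n = q k + s`, `0 ≤ s < k`, it is
`n! / (((q+1)!)^s (q!)^(k-s))`. -/
def balanced (n k : ℕ) : ℕ :=
  n.factorial / ((n / k + 1).factorial ^ (n % k) * (n / k).factorial ^ (k - n % k))

/-- For all `k ≥ 2`, `n ≥ 1`, `r` and every assignment `x` of variables to the `n * k` symbols that is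
injective on each factor, every coefficient of the product of the `n` sums is at most `M(n,k)`. -/
theorem result (k n r : ℕ) (hk : 2 ≤ k) (hn : 1 ≤ n) (x : Fin n → Fin k → Fin r)
    (hx : ∀ i, Function.Injective (x i)) (α : Fin r →₀ ℕ) :
    coeff α (∏ i, ∑ j, X (x i j) : MvPolynomial (Fin r) ℕ) ≤ balanced n k := by
  classical
  set A : Fin n → Finset (Fin r) := fun i => Finset.univ.map ⟨x i, hx i⟩ with hA
  have hcard : ∀ i, (A i).card = k := by
    intro i
    simp [hA]
  have hS : (∏ i, ∑ j, X (x i j) : MvPolynomial (Fin r) ℕ) = S A Finset.univ := by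
    unfold S
    apply Finset.prod_congr rfl
    intro i _
    simp [hA]
  rw [hS]
  change P A Finset.univ α ≤ balanced n k
  set q := n / k with hq
  set s := n % k with hs
  have hdiv : k * q + s = n := Nat.div_add_mod n k
  have hslt : s < k := Nat.mod_lt n (by omega)
  by_cases hz : P A Finset.univ α = 0
  · rw [hz]; exact Nat.zero_le _
  have hcn : (Finset.univ : Finset (Fin n)).card = n := by simp
  obtain ⟨hsum, hle⟩ := of_ne_zero A n Finset.univ hcn α hz
  have hmain := main A n Finset.univ hcn α hz
  have hqn : q + 1 ≤ n := by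
    rcases Nat.eq_zero_or_pos q with h | h
    · omega
    · have : 2 * q ≤ k * q := Nat.mul_le_mul_right q hk
      omega
  have hnpos : (0 : ℝ) < n := by exact_mod_cast hn
  -- linear bound
  have hlin : ∀ l, ((α l : ℝ) * L (D A Finset.univ l) - lf (α l)) ≤
      (α l : ℝ) * (L n - Real.log ((q : ℝ) + 1)) + (D A Finset.univ l : ℝ) * (b q / n) := by
    intro l
    have hDn : D A Finset.univ l ≤ n := by
      unfold D
      calc _ ≤ (Finset.univ : Finset (Fin n)).card := Finset.card_filter_le _ _
        _ = n := hcn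
    have := key (α l) (D A Finset.univ l) n q (hle l) hDn hqn
    have h2 : (D A Finset.univ l : ℝ) / n * b q = (D A Finset.univ l : ℝ) * (b q / n) := by ring
    linarith
  have hDsum : ∑ l, D A Finset.univ l = n * k := by
    unfold D
    simp only [Finset.card_filter]
    rw [Finset.sum_comm]
    have : ∀ i ∈ (Finset.univ : Finset (Fin n)), (∑ l, if l ∈ A i then 1 else 0) = k := by
      intro i _
      rw [← Finset.card_filter]
      rw [← hcard i]
      congr 1
      ext; simp
    rw [Finset.sum_congr rfl this, Finset.sum_const, hcn, smul_eq_mul]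
  have htot : Real.log (P A Finset.univ α : ℝ) ≤
      (n : ℝ) * (L n - Real.log ((q : ℝ) + 1)) + ((n : ℝ) * k) * (b q / n) := by
    refine hmain.trans ?_
    refine (Finset.sum_le_sum (fun l _ => hlin l)).trans (le_of_eq ?_)
    rw [Finset.sum_add_distrib, ← Finset.sum_mul, ← Finset.sum_mul]
    have h1 : (∑ l, (α l : ℝ)) = n := by
      have : ((∑ l, α l : ℕ) : ℝ) = (n : ℝ) := by rw [hsum]
      push_cast at this
      exact this
    have h2 : (∑ l, (D A Finset.univ l : ℝ)) = (n : ℝ) * k := by
      have : ((∑ l, D A Finset.univ l : ℕ) : ℝ) = ((n * k : ℕ) : ℝ) := by rw [hDsum]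
      push_cast at this
      exact this
    rw [h1, h2]
  have hrhs : (n : ℝ) * (L n - Real.log ((q : ℝ) + 1)) + ((n : ℝ) * k) * (b q / n) =
      lf n - (s : ℝ) * Real.log ((q : ℝ) + 1) - k * lf q := by
    have h1 : (n : ℝ) * L n = lf n := L_mul n
    have h2 : ((n : ℝ) * k) * (b q / n) = k * b q := by field_simp
    have h3 : (n : ℝ) = k * q + s := by exact_mod_cast hdiv.symm
    rw [h2, mul_sub, h1]
    unfold b
    have h4 : (n : ℝ) * Real.log ((q : ℝ) + 1) = (k * q + s) * Real.log ((q : ℝ) + 1) := by rw [h3]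
    rw [h4]
    ring
  rw [hrhs] at htot
  -- exponentiate
  have hden : (q + 1).factorial ^ s * q.factorial ^ (k - s) = (q + 1) ^ s * q.factorial ^ k := by
    rw [Nat.factorial_succ, mul_pow, mul_assoc, ← pow_add]
    congr 2
    omega
  have hPpos : (0 : ℝ) < (P A Finset.univ α : ℝ) := by exact_mod_cast Nat.pos_of_ne_zero hz
  have hfin : (P A Finset.univ α : ℝ) * (((q : ℝ) + 1) ^ s * (q.factorial : ℝ) ^ k) ≤ n.factorial := by
    have hqf : (0 : ℝ) < (q.factorial : ℝ) := by exact_mod_cast Nat.factorial_pos q
    have hnf : (0 : ℝ) < (n.factorial : ℝ) := by exact_mod_cast Nat.factorial_pos n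
    rw [← Real.log_le_log_iff (by positivity) hnf]
    rw [Real.log_mul hPpos.ne' (by positivity), Real.log_mul (by positivity) (by positivity),
      Real.log_pow, Real.log_pow]
    unfold lf at htot
    linarith
  have hfinN : P A Finset.univ α * ((q + 1) ^ s * q.factorial ^ k) ≤ n.factorial := by
    exact_mod_cast hfin
  unfold balanced
  rw [← hq, ← hs, hden]
  rw [Nat.le_div_iff_mul_le (by positivity)]
  exact hfinN

end Pool.Agent.Results.MP_3eac50_co.BalancedBound
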